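import Pool.Agent.Y601.SK.Fin

set_option autoImplicit false

/-!
# Randomized linear sketches over `𝔽₂` and one-way communication: the gap is exponential

The definitions `chi`, `HasSketch`, `Rlin`, `HasOneWay`, `Rone`, `xorFn` are those of the starting
result, in `Pool/Agent/Helper12/SketchSep.lean`.

The starting result has a quadratic gap (communication `O(N)`, sketches `Ω(N²)`, `n ≈ N³ / 6`). Here
the communication is logarithmic in `n`, while the linear sketches need `n ^ (1/12) / 3` parities;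
and the communication can be polylogarithmic while almost `n` parities are necessary (`n` are always
sufficient).

Idea. The input is a set `w ⊆ [N]` and a set `z` of `t`-subsets of `[N]`, `t = (d + 1) 2^b - 1`; the
function is `1` iff the product of `|X ∩ w| - (i 2^b - 1)`, `i = 1, …, d`, is zero modulo `p` for all
`X` in `z`, where `p > d` is an odd prime (`d = 1`, `p = 3`: iff `|X ∩ w| ≡ 2^b - 1` modulo three). The
products are bilinear forms of rank `(N + 1) ^ d` modulo `p`, so random sums modulo `p` give a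
protocol with `O((N + 1) ^ d)` bits. A linear sketch with `k` parities gives a matrix over `𝔽₂` of
rank at most `k` which vanishes if `|X ∩ w|` is one of the numbers `i 2^b - 1`; its product with the
matrix of the binomial coefficients `C(|X ∩ w|, 2^b - 1)` modulo two, of rank at most
`C(N, 2^b - 1)`, is the identity on a large part, by Lucas' theorem. So
`C(N, t) ≤ 3 k C(N, 2^b - 1)`.
-/

namespace Pool.Agent.Results.MP_ed2356_lc.ExponentialGap

open Pool.Agent.Helper12.SketchSep (HasSketch HasOneWay xorFn Rlin Rone)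

/-- (1) For every `n ≥ 2 ^ 12` there is a Boolean function `f` of `n` bits with
`R^→(f⁺) ≤ 5 ⌊log₂ n⌋ + 4` and `R^lin(f) ≥ n ^ (1/12) / 3`.
(2) For every `ε > 0` there is a constant `C` such that for all large `n` there is a Boolean function
`f` of `n` bits with `R^→(f⁺) ≤ ⌊log₂ n⌋ ^ C` and `R^lin(f) ≥ n ^ (1 - ε)`.
(3) With all parameters: for all `b, d, N, n, c` and every prime `p > max 2 d` with
`N + C(N, (d+1) 2^b - 1) ≤ n` and `2 ^ N * p ^ (2 (N + 1) ^ d) ≤ 2 ^ c` there is `f` such that `f⁺` has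
a one-way protocol with `c` bits, and `3 k C(N, 2^b - 1) ≥ C(N, (d+1) 2^b - 1)` for every randomized
linear sketch with `k` parities.
(4) `R^lin(f)` is not bounded by a polynomial in `log n` and `R^→(f⁺)`.
(5) The negation of the statement of the question. -/
theorem result :
    (∀ n : ℕ, 2 ^ 12 ≤ n → ∃ f : (Fin n → ZMod 2) → Bool,
      Rone (xorFn f) ≤ 5 * Nat.log 2 n + 4 ∧ (n : ℝ) ^ (1 / 12 : ℝ) ≤ 3 * Rlin f) ∧
    (∀ ε : ℝ, 0 < ε → ∃ C n₀ : ℕ, ∀ n : ℕ, n₀ ≤ n → ∃ f : (Fin n → ZMod 2) → Bool,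
      Rone (xorFn f) ≤ (Nat.log 2 n) ^ C ∧ (n : ℝ) ^ (1 - ε) ≤ Rlin f) ∧
    (∀ b d N n p c : ℕ, p.Prime → 2 < p → d < p →
      N + N.choose ((d + 1) * 2 ^ b - 1) ≤ n →
      2 ^ N * (p ^ ((N + 1) ^ d) * p ^ ((N + 1) ^ d)) ≤ 2 ^ c →
      ∃ f : (Fin n → ZMod 2) → Bool, HasOneWay (xorFn f) c ∧
        ∀ k, HasSketch f k → N.choose ((d + 1) * 2 ^ b - 1) ≤ 3 * (k * N.choose (2 ^ b - 1))) ∧
    (¬ ∃ C : ℕ, ∀ n : ℕ, 1 ≤ n → ∀ f : (Fin n → ZMod 2) → Bool,
      (Rlin f : ℝ) ≤ C * (1 + Real.logb 2 n + Rone (xorFn f)) ^ C) ∧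
    ¬ ∃ C : ℝ, 0 < C ∧ ∀ n : ℕ, 1 ≤ n → ∀ f : (Fin n → ZMod 2) → Bool,
      (Rone (xorFn f) : ℝ) / (C * (1 + Real.logb 2 n) ^ C) ≤ Rlin f ∧
        (Rlin f : ℝ) ≤ C * (1 + Real.logb 2 n) ^ C * Rone (xorFn f) :=
  ⟨Pool.Agent.Y601.SK.part1, Pool.Agent.Y601.SK.part2,
    fun b d N n p c hp hp2 hpd hn hc => Pool.Agent.Y601.SK.inst b d N n p c hp hp2 hpd hn hc,
    Pool.Agent.Y601.SK.part3, Pool.Agent.Helper12.SketchSep.not_equiv⟩

end Pool.Agent.Results.MP_ed2356_lc.ExponentialGap
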